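import Pool.Agent.H72.ProLie.Alg
import Pool.Agent.Levi.Levi
import Pool.Agent.Levi.Nilp

/-!
# Radical theory for subalgebras of a normed space with a continuous bracket
-/

set_option linter.unusedSectionVars false

namespace Pool.Agent.ProLieAlg

open Pool.Agent.H72.ProLie LieAlgebra

variable {E : Type*} [NormedAddCommGroup E] [NormedSpace ℝ E]

theorem bs_mono {br : E →L[ℝ] E →L[ℝ] E} {a b a' b' : Submodule ℝ E} (h1 : a ≤ a') (h2 : b ≤ b') :
    bs br a b ≤ bs br a' b' := by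
  refine Submodule.span_mono ?_
  rintro z ⟨x, hx, y, hy, rfl⟩
  exact ⟨x, h1 hx, y, h2 hy, rfl⟩

theorem mem_bs {br : E →L[ℝ] E →L[ℝ] E} {a b : Submodule ℝ E} {x y : E} (hx : x ∈ a) (hy : y ∈ b) :
    br x y ∈ bs br a b := Submodule.subset_span ⟨x, hx, y, hy, rfl⟩

theorem bs_le {br : E →L[ℝ] E →L[ℝ] E} {a b c : Submodule ℝ E}
    (h : ∀ x ∈ a, ∀ y ∈ b, br x y ∈ c) : bs br a b ≤ c := by
  refine Submodule.span_le.mpr ?_
  rintro z ⟨x, hx, y, hy, rfl⟩
  exact h x hx y hy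

theorem dser_mono {br : E →L[ℝ] E →L[ℝ] E} {a b : Submodule ℝ E} (h : a ≤ b) (k : ℕ) :
    dser br a k ≤ dser br b k := by
  induction k with
  | zero => exact h
  | succ k ih => exact bs_mono ih ih

theorem skew {br : E →L[ℝ] E →L[ℝ] E} (hL : LieBr br) (x y : E) : br x y = - br y x := by
  have h := hL.self (x + y)
  simp only [map_add, add_apply, hL.self, zero_add, add_zero] at h
  exact eq_neg_of_add_eq_zero_right h

section Corr

variable {br : E →L[ℝ] E →L[ℝ] E} (hL : LieBr br) {h : Submodule ℝ E}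
  (hh : ∀ x ∈ h, ∀ y ∈ h, br x y ∈ h)

/-- A subalgebra as an abstract Lie algebra. -/
def LA (_hL : LieBr br) (_hh : ∀ x ∈ h, ∀ y ∈ h, br x y ∈ h) : Type _ := h

noncomputable instance : AddCommGroup (LA hL hh) := inferInstanceAs (AddCommGroup h)

noncomputable instance : Module ℝ (LA hL hh) := inferInstanceAs (Module ℝ h)

instance [FiniteDimensional ℝ E] : FiniteDimensional ℝ (LA hL hh) :=
  inferInstanceAs (FiniteDimensional ℝ h)

/-- The inclusion. -/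
noncomputable def LA.incl : LA hL hh →ₗ[ℝ] E := h.subtype

theorem LA.incl_inj : Function.Injective (LA.incl hL hh) := h.injective_subtype

/-- Elements of the subalgebra. -/
def LA.mk {x : E} (hx : x ∈ h) : LA hL hh := ⟨x, hx⟩

@[simp] theorem LA.incl_mk {x : E} (hx : x ∈ h) : LA.incl hL hh (LA.mk hL hh hx) = x := rfl

theorem LA.incl_mem (x : LA hL hh) : LA.incl hL hh x ∈ h := x.2

noncomputable instance : Bracket (LA hL hh) (LA hL hh) where
  bracket x y := LA.mk hL hh (hh _ (LA.incl_mem hL hh x) _ (LA.incl_mem hL hh y))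

@[simp] theorem LA.incl_lie (x y : LA hL hh) :
    LA.incl hL hh ⁅x, y⁆ = br (LA.incl hL hh x) (LA.incl hL hh y) := rfl

noncomputable instance : LieRing (LA hL hh) where
  add_lie x y z := LA.incl_inj hL hh (by simp)
  lie_add x y z := LA.incl_inj hL hh (by simp)
  lie_self x := LA.incl_inj hL hh (by simp [hL.self])
  leibniz_lie x y z := LA.incl_inj hL hh (by simp [hL.jac (LA.incl hL hh x)])

noncomputable instance : LieAlgebra ℝ (LA hL hh) where
  lie_smul t x y := LA.incl_inj hL hh (by simp)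

/-- The Lie ideal attached to an ideal. -/
noncomputable def toIdeal {j : Submodule ℝ E} (hj : IsLieIdl br h j) : LieIdeal ℝ (LA hL hh) :=
  { (j.comap (LA.incl hL hh) : Submodule ℝ (LA hL hh)) with
    lie_mem := fun {x _} hm => hj.br_mem _ (LA.incl_mem hL hh x) _ hm }

@[simp] theorem mem_toIdeal {j : Submodule ℝ E} (hj : IsLieIdl br h j) {x : LA hL hh} :
    x ∈ toIdeal hL hh hj ↔ LA.incl hL hh x ∈ j := Iff.rfl

/-- The submodule of `E` attached to a Lie ideal. -/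
noncomputable def ofIdeal (I : LieIdeal ℝ (LA hL hh)) : Submodule ℝ E :=
  I.toSubmodule.map (LA.incl hL hh)

@[simp] theorem mem_ofIdeal {I : LieIdeal ℝ (LA hL hh)} {x : LA hL hh} :
    LA.incl hL hh x ∈ ofIdeal hL hh I ↔ x ∈ I := by
  constructor
  · rintro ⟨y, hy, hxy⟩
    rwa [← LA.incl_inj hL hh hxy]
  · intro hx
    exact ⟨x, hx, rfl⟩

theorem ofIdeal_le (I : LieIdeal ℝ (LA hL hh)) : ofIdeal hL hh I ≤ h := by
  rintro _ ⟨y, -, rfl⟩
  exact LA.incl_mem hL hh y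

theorem mem_ofIdeal_iff {I : LieIdeal ℝ (LA hL hh)} {x : E} (hx : x ∈ h) :
    x ∈ ofIdeal hL hh I ↔ LA.mk hL hh hx ∈ I := by
  rw [← mem_ofIdeal hL hh, LA.incl_mk]

theorem ofIdeal_isLieIdl (I : LieIdeal ℝ (LA hL hh)) : IsLieIdl br h (ofIdeal hL hh I) where
  le := ofIdeal_le hL hh I
  br_mem x hx := by
    rintro _ ⟨y, hy, rfl⟩
    exact ⟨⁅LA.mk hL hh hx, y⁆, I.lie_mem hy, rfl⟩

theorem ofIdeal_toIdeal {j : Submodule ℝ E} (hj : IsLieIdl br h j) :
    ofIdeal hL hh (toIdeal hL hh hj) = j := by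
  ext x
  constructor
  · rintro ⟨y, hy, rfl⟩
    exact hy
  · intro hx
    exact ⟨LA.mk hL hh (hj.le hx), hx, rfl⟩

theorem toIdeal_ofIdeal (I : LieIdeal ℝ (LA hL hh)) :
    toIdeal hL hh (ofIdeal_isLieIdl hL hh I) = I := by
  ext x
  rw [mem_toIdeal, mem_ofIdeal]

theorem ofIdeal_mono {I J : LieIdeal ℝ (LA hL hh)} : ofIdeal hL hh I ≤ ofIdeal hL hh J ↔ I ≤ J := by
  constructor
  · intro hIJ x hx
    rw [← mem_ofIdeal hL hh] at hx ⊢
    exact hIJ hx
  · intro hIJ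
    exact Submodule.map_mono hIJ

theorem ofIdeal_lie (I J : LieIdeal ℝ (LA hL hh)) :
    ofIdeal hL hh ⁅I, J⁆ = bs br (ofIdeal hL hh I) (ofIdeal hL hh J) := by
  rw [ofIdeal, LieSubmodule.lieIdeal_oper_eq_linear_span', Submodule.map_span]
  unfold bs
  congr 1
  ext z
  constructor
  · rintro ⟨_, ⟨a, ha, b, hb, rfl⟩, rfl⟩
    exact ⟨LA.incl hL hh a, ⟨a, ha, rfl⟩, LA.incl hL hh b, ⟨b, hb, rfl⟩, rfl⟩
  · rintro ⟨_, ⟨a, ha, rfl⟩, _, ⟨b, hb, rfl⟩, rfl⟩
    exact ⟨⁅a, b⁆, ⟨a, ha, b, hb, rfl⟩, rfl⟩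

theorem ofIdeal_top : ofIdeal hL hh ⊤ = h := by
  ext x
  constructor
  · rintro ⟨y, -, rfl⟩
    exact LA.incl_mem hL hh y
  · intro hx
    exact ⟨LA.mk hL hh hx, trivial, rfl⟩

theorem ofIdeal_eq_bot {I : LieIdeal ℝ (LA hL hh)} : ofIdeal hL hh I = ⊥ ↔ I = ⊥ := by
  constructor
  · intro hI
    rw [eq_bot_iff]
    intro x hx
    rw [← mem_ofIdeal hL hh, hI, Submodule.mem_bot, ← (LA.incl hL hh).map_zero] at hx
    rw [LA.incl_inj hL hh hx]
    exact zero_mem _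
  · rintro rfl
    rw [eq_bot_iff]
    rintro _ ⟨x, hx, rfl⟩
    have : x = 0 := hx
    rw [this, map_zero]
    exact zero_mem _

theorem dser_ofIdeal (I : LieIdeal ℝ (LA hL hh)) (k : ℕ) :
    dser br (ofIdeal hL hh I) k = ofIdeal hL hh (derivedSeriesOfIdeal ℝ (LA hL hh) k I) := by
  induction k with
  | zero => rfl
  | succ k ih =>
    rw [derivedSeriesOfIdeal_succ, ofIdeal_lie, ← ih]
    rfl

theorem isSolv_ofIdeal {I : LieIdeal ℝ (LA hL hh)} :
    IsSolv br (ofIdeal hL hh I) ↔ IsSolvable I := by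
  rw [LieAlgebra.isSolvable_iff ℝ]
  unfold IsSolv
  simp only [dser_ofIdeal, ofIdeal_eq_bot, LieIdeal.derivedSeries_eq_bot_iff]

variable [FiniteDimensional ℝ E]

theorem rad_eq : Rad br h = ofIdeal hL hh (radical ℝ (LA hL hh)) := by
  refine le_antisymm ?_ ?_
  · refine sSup_le ?_
    rintro j ⟨hj, hs⟩
    rw [← ofIdeal_toIdeal hL hh hj, ofIdeal_mono, ← LieIdeal.solvable_iff_le_radical,
      ← isSolv_ofIdeal hL hh, ofIdeal_toIdeal hL hh hj]
    exact hs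
  · refine le_sSup ⟨ofIdeal_isLieIdl hL hh _, ?_⟩
    rw [isSolv_ofIdeal]
    infer_instance

include hL hh in
/-- R1 -/
theorem rad_idl : IsLieIdl br h (Rad br h) := by
  rw [rad_eq hL hh]
  exact ofIdeal_isLieIdl hL hh _

include hL hh in
/-- R1 -/
theorem rad_solv : IsSolv br (Rad br h) := by
  rw [rad_eq hL hh, isSolv_ofIdeal]
  infer_instance

/-- R1 -/
theorem le_rad {j : Submodule ℝ E} (hj : IsLieIdl br h j) (hs : IsSolv br j) : j ≤ Rad br h :=
  le_sSup ⟨hj, hs⟩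

omit [FiniteDimensional ℝ E] in
/-- R5, second part -/
theorem le_rad_of_le {h₁ j : Submodule ℝ E} (hj : IsLieIdl br h j) (h1 : h₁ ≤ h) (hj1 : j ≤ h₁)
    (hs : IsSolv br j) : j ≤ Rad br h₁ :=
  le_sSup ⟨⟨hj1, fun x hx y hy => hj.br_mem x (h1 hx) y hy⟩, hs⟩

include hL hh in
/-- R2 -/
theorem levi' : ∃ π : E →L[ℝ] E, (∀ x ∈ h, π x ∈ h) ∧
    (∀ x ∈ h, ∀ y ∈ h, π (br x y) = br (π x) (π y)) ∧ (∀ x ∈ h, π (π x) = π x) ∧
    (∀ x ∈ h, π x = 0 ↔ x ∈ Rad br h) := by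
  obtain ⟨π, h1, h2⟩ := Levi.levi (K := ℝ) (LA hL hh)
  let f : h →ₗ[ℝ] E := LA.incl hL hh ∘ₗ (π : LA hL hh →ₗ[ℝ] LA hL hh)
  obtain ⟨g, hg⟩ := LinearMap.exists_extend f
  have hg' : ∀ x : LA hL hh, g (LA.incl hL hh x) = LA.incl hL hh (π x) := fun x =>
    LinearMap.congr_fun hg x
  refine ⟨LinearMap.toContinuousLinearMap g, ?_, ?_, ?_, ?_⟩
  · intro x hx
    have := hg' (LA.mk hL hh hx)
    rw [LA.incl_mk] at this
    rw [LinearMap.coe_toContinuousLinearMap', this]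
    exact LA.incl_mem hL hh _
  · intro x hx y hy
    simp only [LinearMap.coe_toContinuousLinearMap']
    have e1 := hg' (LA.mk hL hh hx)
    have e2 := hg' (LA.mk hL hh hy)
    have e3 := hg' ⁅LA.mk hL hh hx, LA.mk hL hh hy⁆
    rw [LA.incl_mk] at e1 e2
    rw [LA.incl_lie, LA.incl_mk, LA.incl_mk, LieHom.map_lie, LA.incl_lie, ← e1, ← e2] at e3
    exact e3
  · intro x hx
    simp only [LinearMap.coe_toContinuousLinearMap']
    have e1 := hg' (LA.mk hL hh hx)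
    rw [LA.incl_mk] at e1
    rw [e1, hg', h1]
  · intro x hx
    simp only [LinearMap.coe_toContinuousLinearMap']
    have e1 := hg' (LA.mk hL hh hx)
    rw [LA.incl_mk] at e1
    rw [e1, rad_eq hL hh, mem_ofIdeal_iff hL hh hx, ← h2, ← (LA.incl hL hh).map_zero]
    exact (LA.incl_inj hL hh).eq_iff

theorem bs_rad_eq :
    bs br h (Rad br h) = ofIdeal hL hh ⁅(⊤ : LieIdeal ℝ (LA hL hh)), radical ℝ (LA hL hh)⁆ := by
  rw [ofIdeal_lie, ofIdeal_top, ← rad_eq hL hh]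

include hL hh in
theorem ad_nil : ∀ x ∈ bs br h (Rad br h), ∃ k, ∀ y ∈ h, ((br x) ^ k) y = 0 := by
  intro x hx
  rw [bs_rad_eq hL hh] at hx
  obtain ⟨a, ha, rfl⟩ := hx
  obtain ⟨k, hk⟩ := Levi.ad_nilpotent_of_mem (K := ℝ) a ha
  refine ⟨k, fun y hy => ?_⟩
  have key : ∀ (n : ℕ) (z : LA hL hh), ((br (LA.incl hL hh a)) ^ n) (LA.incl hL hh z) =
      LA.incl hL hh (((LieAlgebra.ad ℝ (LA hL hh) a) ^ n) z) := by
    intro n
    induction n with
    | zero => intro z; rfl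
    | succ n ih =>
      intro z
      rw [pow_succ, pow_succ, Module.End.mul_apply, ← ih]
      rfl
  have := key k (LA.mk hL hh hy)
  rw [hk, LA.incl_mk] at this
  rw [this]
  simp

/-- the descending series -/
def nser (br : E →L[ℝ] E →L[ℝ] E) (j : Submodule ℝ E) : ℕ → Submodule ℝ E
  | 0 => j
  | k + 1 => bs br j (nser br j k)

include hL in
theorem bs_isLieIdl {a b : Submodule ℝ E} (ha : IsLieIdl br h a) (hb : IsLieIdl br h b) :
    IsLieIdl br h (bs br a b) := by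
  constructor
  · exact bs_le fun x _ y hy => hb.le (hb.br_mem x (ha.le ‹_›) y hy)
  · intro x hx y hy
    unfold bs at hy
    induction hy using Submodule.span_induction with
    | mem z hz =>
      obtain ⟨u, hu, v, hv, rfl⟩ := hz
      rw [hL.jac]
      exact add_mem (mem_bs (ha.br_mem x hx u hu) hv) (mem_bs hu (hb.br_mem x hx v hv))
    | zero => rw [map_zero]; exact zero_mem _
    | add y z _ _ hy hz => rw [map_add]; exact add_mem hy hz
    | smul c y _ hy => rw [map_smul]; exact Submodule.smul_mem _ _ hy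

include hL hh in
/-- R3 -/
theorem nil_series : ∃ n : ℕ → Submodule ℝ E, n 0 = bs br h (Rad br h) ∧
    (∀ i, IsLieIdl br h (n i)) ∧ (∀ i, ∀ u ∈ n 0, ∀ v ∈ n i, br u v ∈ n (i+1)) ∧
    (∀ i, n (i+1) ≤ n i) ∧ ∃ k, n k = ⊥ := by
  have hrad := rad_idl hL hh
  have hid : IsLieIdl br h h := ⟨le_rfl, hh⟩
  have h0 : IsLieIdl br h (bs br h (Rad br h)) := bs_isLieIdl hL hid hrad
  refine ⟨nser br (bs br h (Rad br h)), rfl, ?_, ?_, ?_, ?_⟩
  · intro i
    induction i with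
    | zero => exact h0
    | succ i ih => exact bs_isLieIdl hL h0 ih
  · intro i u hu v hv
    exact mem_bs hu hv
  · intro i
    have hi : ∀ i, IsLieIdl br h (nser br (bs br h (Rad br h)) i) := by
      intro i
      induction i with
      | zero => exact h0
      | succ i ih => exact bs_isLieIdl hL h0 ih
    exact bs_le fun x hx y hy => (hi i).br_mem x (h0.le hx) y hy
  · -- Engel
    set n0 := bs br h (Rad br h) with hn0
    have hh0 : ∀ x ∈ n0, ∀ y ∈ n0, br x y ∈ n0 := fun x hx y hy => h0.br_mem x (h0.le hx) y hy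
    have hE : LieRing.IsNilpotent (LA hL hh0) := by
      rw [LieAlgebra.isNilpotent_iff_forall (R := ℝ)]
      intro x
      obtain ⟨k, hk⟩ := ad_nil hL hh _ (LA.incl_mem hL hh0 x)
      refine ⟨k, ?_⟩
      ext y
      apply LA.incl_inj hL hh0
      have key : ∀ (n : ℕ) (z : LA hL hh0), ((br (LA.incl hL hh0 x)) ^ n) (LA.incl hL hh0 z) =
          LA.incl hL hh0 (((LieAlgebra.ad ℝ (LA hL hh0) x) ^ n) z) := by
        intro n
        induction n with
        | zero => intro z; rfl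
        | succ n ih =>
          intro z
          rw [pow_succ, pow_succ, Module.End.mul_apply, ← ih]
          rfl
      rw [← key, hk _ (h0.le (LA.incl_mem hL hh0 y))]
      simp
    obtain ⟨k, hk⟩ := (LieModule.isNilpotent_iff ℝ (LA hL hh0) (LA hL hh0)).mp hE
    refine ⟨k, ?_⟩
    have key : ∀ i, nser br n0 i ≤ (LieModule.lowerCentralSeries ℝ (LA hL hh0) (LA hL hh0) i
        ).toSubmodule.map (LA.incl hL hh0) := by
      intro i
      induction i with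
      | zero =>
        intro x hx
        exact ⟨LA.mk hL hh0 hx, trivial, rfl⟩
      | succ i ih =>
        refine bs_le fun x hx y hy => ?_
        obtain ⟨z, hz, rfl⟩ := ih hy
        refine ⟨⁅LA.mk hL hh0 hx, z⁆, ?_, rfl⟩
        rw [LieModule.lowerCentralSeries_succ]
        exact LieSubmodule.lie_mem_lie (LieSubmodule.mem_top _) hz
    rw [eq_bot_iff]
    refine (key k).trans ?_
    rw [hk]
    rintro _ ⟨x, hx, rfl⟩
    have : x = 0 := hx
    rw [this, map_zero]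
    exact zero_mem _

include hL hh in
/-- R4 -/
theorem h_le : h ≤ bs br h h ⊔ Rad br h := by
  have hR := Levi.hasTrivialRadical_quotient (K := ℝ) (LA hL hh)
  have hfd : FiniteDimensional ℝ (LA hL hh ⧸ radical ℝ (LA hL hh)) :=
    inferInstanceAs (FiniteDimensional ℝ (LA hL hh ⧸ (radical ℝ (LA hL hh)).toSubmodule))
  have h1 := Levi.derivedSeries_one_eq_top (K := ℝ) (S := LA hL hh ⧸ radical ℝ (LA hL hh))
  have h2 : (⊤ : LieIdeal ℝ (LA hL hh)) ≤ ⁅(⊤ : LieIdeal ℝ (LA hL hh)), ⊤⁆ ⊔ radical ℝ (LA hL hh) := by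
    intro x _
    have hx : Levi.quotHom (radical ℝ (LA hL hh)) x ∈ derivedSeries ℝ (LA hL hh ⧸ radical ℝ (LA hL hh)) 1 := by
      rw [h1]; exact LieSubmodule.mem_top _
    rw [derivedSeries_def, derivedSeriesOfIdeal_succ, derivedSeriesOfIdeal_zero,
      ← LieSubmodule.mem_toSubmodule, LieSubmodule.lieIdeal_oper_eq_linear_span'] at hx
    have key : ∀ y ∈ Submodule.span ℝ {m | ∃ x ∈ (⊤ : LieIdeal ℝ (LA hL hh ⧸ radical ℝ (LA hL hh))),
        ∃ n ∈ (⊤ : LieIdeal ℝ (LA hL hh ⧸ radical ℝ (LA hL hh))), ⁅x, n⁆ = m},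
        ∃ z ∈ ⁅(⊤ : LieIdeal ℝ (LA hL hh)), (⊤ : LieIdeal ℝ (LA hL hh))⁆,
          Levi.quotHom (radical ℝ (LA hL hh)) z = y := by
      intro y hy
      induction hy using Submodule.span_induction with
      | mem y hy =>
        obtain ⟨a, -, b, -, rfl⟩ := hy
        obtain ⟨a, rfl⟩ := Levi.quotHom_surjective _ a
        obtain ⟨b, rfl⟩ := Levi.quotHom_surjective _ b
        exact ⟨⁅a, b⁆, LieSubmodule.lie_mem_lie (LieSubmodule.mem_top _) (LieSubmodule.mem_top _),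
          LieHom.map_lie _ _ _⟩
      | zero => exact ⟨0, zero_mem _, map_zero _⟩
      | add y z _ _ hy hz =>
        obtain ⟨a, ha, rfl⟩ := hy
        obtain ⟨b, hb, rfl⟩ := hz
        exact ⟨a + b, add_mem ha hb, map_add _ _ _⟩
      | smul c y _ hy =>
        obtain ⟨a, ha, rfl⟩ := hy
        exact ⟨c • a, SMulMemClass.smul_mem _ ha, map_smul _ _ _⟩
    obtain ⟨z, hz, hzx⟩ := key _ hx
    have h3 : x - z ∈ radical ℝ (LA hL hh) := by
      rw [← Levi.quotHom_eq_zero, map_sub, hzx, sub_self]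
    have h4 : x = z + (x - z) := by abel
    rw [h4, LieSubmodule.mem_sup]
    exact ⟨z, hz, _, h3, rfl⟩
  intro x hx
  have h3 := h2 (LieSubmodule.mem_top (LA.mk hL hh hx))
  rw [LieSubmodule.mem_sup] at h3
  obtain ⟨a, ha, b, hb, hab⟩ := h3
  have h4 : x = LA.incl hL hh a + LA.incl hL hh b := by
    rw [← map_add, hab, LA.incl_mk]
  rw [h4]
  refine Submodule.add_mem_sup ?_ ?_
  · have e : bs br h h = ofIdeal hL hh ⁅(⊤ : LieIdeal ℝ (LA hL hh)), (⊤ : LieIdeal ℝ (LA hL hh))⁆ := by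
      rw [ofIdeal_lie, ofIdeal_top]
    rw [e, mem_ofIdeal]
    exact ha
  · rw [rad_eq hL hh, mem_ofIdeal]
    exact hb

end Corr

section Map

variable {E' : Type*} [NormedAddCommGroup E'] [NormedSpace ℝ E']

theorem map_bs {br : E →L[ℝ] E →L[ℝ] E} {br' : E' →L[ℝ] E' →L[ℝ] E'} {h : Submodule ℝ E}
    (T : E →ₗ[ℝ] E') (hT : ∀ x ∈ h, ∀ y ∈ h, T (br x y) = br' (T x) (T y)) {a b : Submodule ℝ E}
    (ha : a ≤ h) (hb : b ≤ h) : (bs br a b).map T = bs br' (a.map T) (b.map T) := by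
  unfold bs
  rw [Submodule.map_span]
  congr 1
  ext z
  constructor
  · rintro ⟨_, ⟨x, hx, y, hy, rfl⟩, rfl⟩
    exact ⟨T x, ⟨x, hx, rfl⟩, T y, ⟨y, hy, rfl⟩, hT x (ha hx) y (hb hy)⟩
  · rintro ⟨_, ⟨x, hx, rfl⟩, _, ⟨y, hy, rfl⟩, rfl⟩
    exact ⟨br x y, ⟨x, hx, y, hy, rfl⟩, hT x (ha hx) y (hb hy)⟩

theorem dser_le {br : E →L[ℝ] E →L[ℝ] E} {h : Submodule ℝ E} (hh : ∀ x ∈ h, ∀ y ∈ h, br x y ∈ h)
    {j : Submodule ℝ E} (hj : j ≤ h) (k : ℕ) : dser br j k ≤ h := by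
  induction k with
  | zero => exact hj
  | succ k ih => exact bs_le fun x hx y hy => hh x (ih hx) y (ih hy)

theorem map_dser {br : E →L[ℝ] E →L[ℝ] E} {br' : E' →L[ℝ] E' →L[ℝ] E'} {h : Submodule ℝ E}
    (hh : ∀ x ∈ h, ∀ y ∈ h, br x y ∈ h)
    (T : E →ₗ[ℝ] E') (hT : ∀ x ∈ h, ∀ y ∈ h, T (br x y) = br' (T x) (T y)) {j : Submodule ℝ E}
    (hj : j ≤ h) (k : ℕ) : (dser br j k).map T = dser br' (j.map T) k := by
  induction k with
  | zero => rfl
  | succ k ih =>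
    change (bs br (dser br j k) (dser br j k)).map T = bs br' _ _
    rw [map_bs T hT (dser_le hh hj k) (dser_le hh hj k), ih]

/-- R5 -/
theorem map_rad [FiniteDimensional ℝ E] {br : E →L[ℝ] E →L[ℝ] E} (hL : LieBr br)
    {br' : E' →L[ℝ] E' →L[ℝ] E'} {h : Submodule ℝ E} {h' : Submodule ℝ E'}
    (hh : ∀ x ∈ h, ∀ y ∈ h, br x y ∈ h)
    (T : E →ₗ[ℝ] E') (hT : ∀ x ∈ h, ∀ y ∈ h, T (br x y) = br' (T x) (T y)) (hTh : h.map T = h') :
    ∀ x ∈ Rad br h, T x ∈ Rad br' h' := by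
  have hid := rad_idl hL hh
  have hle : (Rad br h).map T ≤ Rad br' h' := by
    refine le_sSup ⟨⟨?_, ?_⟩, ?_⟩
    · rw [← hTh]
      exact Submodule.map_mono hid.le
    · rintro x hx _ ⟨y, hy, rfl⟩
      rw [← hTh] at hx
      obtain ⟨x, hx, rfl⟩ := hx
      exact ⟨br x y, hid.br_mem x hx y hy, hT x hx y (hid.le hy)⟩
    · obtain ⟨k, hk⟩ := rad_solv hL hh
      refine ⟨k, ?_⟩
      rw [← map_dser hh T hT hid.le, hk, Submodule.map_bot]
  exact fun x hx => hle ⟨x, hx, rfl⟩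

end Map

end Pool.Agent.ProLieAlg
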