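import Mathlib

/-!
# Linear compactness of closed subspaces of products of finite-dimensional spaces
-/

namespace Pool.Agent.ProLieAlg

open Module

/-- Factorisation of a functional through a linear map. -/
theorem exists_comp_eq {K V W : Type*} [Field K] [AddCommGroup V] [Module K V] [AddCommGroup W]
    [Module K W] (Φ : V →ₗ[K] W) (C : V →ₗ[K] K) (h : ∀ v, Φ v = 0 → C v = 0) :
    ∃ Λ : W →ₗ[K] K, ∀ v, Λ (Φ v) = C v := by
  obtain ⟨s, hs⟩ := Φ.rangeRestrict.exists_rightInverse_of_surjective Φ.range_rangeRestrict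
  obtain ⟨Λ, hΛ⟩ := LinearMap.exists_extend (C ∘ₗ s)
  refine ⟨Λ, fun v => ?_⟩
  have h1 : Λ (Φ v) = C (s (Φ.rangeRestrict v)) := LinearMap.congr_fun hΛ (Φ.rangeRestrict v)
  have h2 : Φ (s (Φ.rangeRestrict v)) = Φ v := by
    have := LinearMap.congr_fun hs (Φ.rangeRestrict v)
    exact congrArg Subtype.val this
  have h3 := h (s (Φ.rangeRestrict v) - v) (by rw [map_sub, h2, sub_self])
  rw [map_sub] at h3
  rw [h1, sub_eq_zero.mp h3]

theorem linear_compact {ι : Type*} {E : ι → Type*} [∀ i, AddCommGroup (E i)] [∀ i, Module ℝ (E i)]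
    [∀ i, FiniteDimensional ℝ (E i)] (W : Submodule ℝ (∀ i, E i))
    (hW : ∀ x : ∀ i, E i, (∀ F : Finset ι, ∃ y ∈ W, ∀ i ∈ F, y i = x i) → x ∈ W)
    {κ : Type*} (φ : κ → ((∀ i, E i) →ₗ[ℝ] ℝ))
    (hφ : ∀ k, ∃ F : Finset ι, ∀ x : ∀ i, E i, (∀ i ∈ F, x i = 0) → φ k x = 0) (c : κ → ℝ)
    (hfin : ∀ S : Finset κ, ∃ x ∈ W, ∀ k ∈ S, φ k x = c k) : ∃ x ∈ W, ∀ k, φ k x = c k := by
  classical
  -- the functional on `κ →₀ ℝ`
  let r : κ → Dual ℝ W := fun k => φ k ∘ₗ W.subtype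
  let Φ : (κ →₀ ℝ) →ₗ[ℝ] Dual ℝ W := Finsupp.linearCombination ℝ r
  let C : (κ →₀ ℝ) →ₗ[ℝ] ℝ := Finsupp.linearCombination ℝ c
  obtain ⟨Λ, hΛ⟩ := exists_comp_eq Φ C (by
    intro v hv
    obtain ⟨x, hx, hxc⟩ := hfin v.support
    have h1 : Φ v ⟨x, hx⟩ = 0 := by rw [hv]; rfl
    simp only [Φ, C, Finsupp.linearCombination_apply, Finsupp.sum] at h1 ⊢
    rw [LinearMap.sum_apply] at h1
    rw [← h1]
    refine Finset.sum_congr rfl fun k hk => ?_
    change v k • c k = v k • φ k x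
    rw [hxc k hk])
  have hΛr : ∀ k, Λ (r k) = c k := by
    intro k
    have := hΛ (Finsupp.single k 1)
    simpa [Φ, C] using this
  -- coordinates of the point
  let cmp : ∀ i, Dual ℝ (E i) →ₗ[ℝ] Dual ℝ W := fun i =>
    { toFun := fun ψ => ψ ∘ₗ (LinearMap.proj i) ∘ₗ W.subtype
      map_add' := fun a b => rfl
      map_smul' := fun a b => rfl }
  have hx : ∀ i, ∃ xi : E i, ∀ ψ : Dual ℝ (E i), Λ (cmp i ψ) = ψ xi := by
    intro i
    refine ⟨(evalEquiv ℝ (E i)).symm (Λ ∘ₗ cmp i), fun ψ => ?_⟩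
    have h1 := (evalEquiv ℝ (E i)).apply_symm_apply (Λ ∘ₗ cmp i)
    have h2 := LinearMap.congr_fun h1 ψ
    exact h2.symm
  choose x hx using hx
  -- functionals depending on finitely many coordinates
  have hval : ∀ (f : (∀ i, E i) →ₗ[ℝ] ℝ) (F : Finset ι),
      (∀ y : ∀ i, E i, (∀ i ∈ F, y i = 0) → f y = 0) → Λ (f ∘ₗ W.subtype) = f x := by
    intro f F hf
    have h1 : ∀ y : ∀ i, E i, f y = ∑ i ∈ F, f (Pi.single i (y i)) := by
      intro y
      rw [← map_sum, ← sub_eq_zero, ← map_sub]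
      apply hf
      intro i hi
      rw [Pi.sub_apply, Finset.sum_apply, Finset.sum_eq_single i, Pi.single_eq_same, sub_self]
      · intro j _ hj
        rw [Pi.single_eq_of_ne (Ne.symm hj)]
      · intro h; exact absurd hi h
    have h2 : f ∘ₗ W.subtype = ∑ i ∈ F, cmp i (f ∘ₗ LinearMap.single ℝ E i) := by
      ext y
      rw [LinearMap.sum_apply]
      exact h1 y
    rw [h2, map_sum, h1 x]
    refine Finset.sum_congr rfl fun i _ => ?_
    rw [hx]
    rfl
  refine ⟨x, ?_, fun k => ?_⟩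
  · apply hW
    intro F
    let R : (∀ i, E i) →ₗ[ℝ] (∀ i : F, E i) := LinearMap.pi fun i => LinearMap.proj (i : ι)
    by_contra hcon
    have hnot : R x ∉ W.map R := by
      rintro ⟨y, hy, hyx⟩
      exact hcon ⟨y, hy, fun i hi => congrFun hyx ⟨i, hi⟩⟩
    obtain ⟨f, hfx, hf⟩ := Submodule.exists_le_ker_of_notMem hnot
    apply hfx
    have h1 := hval (f ∘ₗ R) F (by
      intro y hy
      have : R y = 0 := by
        ext i
        exact hy i i.2
      rw [LinearMap.comp_apply, this, map_zero])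
    rw [← LinearMap.comp_apply, ← h1]
    have h2 : (f ∘ₗ R) ∘ₗ W.subtype = 0 := by
      ext y
      exact hf ⟨y, y.2, rfl⟩
    rw [h2, map_zero]
  · obtain ⟨F, hF⟩ := hφ k
    rw [← hval (φ k) F hF]
    exact hΛr k

end Pool.Agent.ProLieAlg
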