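import Pool.Agent.ProLieAlg.LocalExp
import Pool.Agent.ProLieAlg.LinComp

/-!
# Gluing of two exponentials over a pro-finite-dimensional Lie algebra
-/

set_option linter.unusedSectionVars false

namespace Pool.Agent.ProLieAlg

open Pool.Agent.H72.ProLie LieAlgebra Module NormedSpace

section CRT

variable {K : Type*} [Field K] {L : Type*} [LieRing L] [LieAlgebra K L]

theorem top_lie_le {J : LieIdeal K L} (h : ∀ a b : L, ⁅a, b⁆ ∈ J) :
    ⁅(⊤ : LieIdeal K L), (⊤ : LieIdeal K L)⁆ ≤ J := by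
  rw [LieSubmodule.lieIdeal_oper_eq_span, LieSubmodule.lieSpan_le]
  rintro _ ⟨⟨a, ha⟩, ⟨b, hb⟩, rfl⟩
  exact h a b

theorem prime_of_coatom {J A B : LieIdeal K L} (hJ : IsCoatom J)
    (hne : ¬ (⁅(⊤ : LieIdeal K L), (⊤ : LieIdeal K L)⁆ ≤ J)) (hAB : ⁅A, B⁆ ≤ J) :
    A ≤ J ∨ B ≤ J := by
  by_contra hcon
  push Not at hcon
  apply hne
  have hA : A ⊔ J = ⊤ := by
    apply hJ.2
    refine lt_of_le_of_ne le_sup_right fun h => hcon.1 (by rw [h]; exact le_sup_left)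
  have hB : B ⊔ J = ⊤ := by
    apply hJ.2
    refine lt_of_le_of_ne le_sup_right fun h => hcon.2 (by rw [h]; exact le_sup_left)
  rw [LieSubmodule.lieIdeal_oper_eq_span, LieSubmodule.lieSpan_le]
  rintro _ ⟨⟨a, ha⟩, ⟨b, hb⟩, rfl⟩
  rw [← hA, LieSubmodule.mem_sup] at ha
  rw [← hB, LieSubmodule.mem_sup] at hb
  obtain ⟨a1, ha1, a2, ha2, rfl⟩ := ha
  obtain ⟨b1, hb1, b2, hb2, rfl⟩ := hb
  change ⁅a1 + a2, b1 + b2⁆ ∈ J
  rw [add_lie, lie_add]
  refine add_mem (add_mem (hAB (LieSubmodule.lie_mem_lie ha1 hb1)) (J.lie_mem hb2)) ?_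
  rw [← lie_skew]
  exact neg_mem (J.lie_mem ha2)

theorem exists_le_of_inf_le {κ : Type*} (J : κ → LieIdeal K L) {J₀ : LieIdeal K L}
    (hJ : IsCoatom J₀) (hne : ¬ (⁅(⊤ : LieIdeal K L), (⊤ : LieIdeal K L)⁆ ≤ J₀)) (S : Finset κ)
    (h : S.inf J ≤ J₀) : ∃ k ∈ S, J k ≤ J₀ := by
  classical
  induction S using Finset.induction_on with
  | empty =>
    exfalso
    apply hJ.1
    rw [eq_top_iff]
    exact h
  | insert k S hk ih =>
    rw [Finset.inf_insert] at h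
    have h1 : ⁅J k, S.inf J⁆ ≤ J₀ := LieSubmodule.lie_le_inf _ _ |>.trans h
    rcases prime_of_coatom hJ hne h1 with h2 | h2
    · exact ⟨k, Finset.mem_insert_self _ _, h2⟩
    · obtain ⟨l, hl, hl'⟩ := ih h2
      exact ⟨l, Finset.mem_insert_of_mem hl, hl'⟩

/-- Chinese remainder theorem. -/
theorem crt {κ : Type*} (J : κ → LieIdeal K L) (hinj : Function.Injective J)
    (hJ : ∀ k, IsCoatom (J k)) (hne : ∀ k, ¬ (⁅(⊤ : LieIdeal K L), (⊤ : LieIdeal K L)⁆ ≤ J k))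
    (x : κ → L) (S : Finset κ) : ∃ w : L, ∀ k ∈ S, w - x k ∈ J k := by
  classical
  induction S using Finset.induction_on with
  | empty => exact ⟨0, by simp⟩
  | insert k S hk ih =>
    obtain ⟨w, hw⟩ := ih
    have h1 : ¬ (S.inf J ≤ J k) := by
      intro h
      obtain ⟨l, hl, hlk⟩ := exists_le_of_inf_le J (hJ k) (hne k) S h
      have : J l = J k := by
        rcases hlk.eq_or_lt with h | h
        · exact h
        · exact absurd ((hJ l).2 _ h) (hJ k).1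
      exact hk (hinj this ▸ hl)
    have h2 : S.inf J ⊔ J k = ⊤ := by
      apply (hJ k).2
      refine lt_of_le_of_ne le_sup_right fun h => h1 (by rw [h]; exact le_sup_left)
    have h3 : x k - w ∈ S.inf J ⊔ J k := by rw [h2]; exact LieSubmodule.mem_top _
    rw [LieSubmodule.mem_sup] at h3
    obtain ⟨y, hy, z, hz, hyz⟩ := h3
    refine ⟨w + y, fun l hl => ?_⟩
    rcases Finset.mem_insert.mp hl with rfl | hl
    · have : w + y - x l = - z := by
        have : x l = w + (y + z) := by rw [hyz]; abel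
        rw [this]; abel
      rw [this]
      exact neg_mem hz
    · have h4 : y ∈ J l := (Finset.inf_le hl : S.inf J ≤ J l) hy
      have : w + y - x l = (w - x l) + y := by abel
      rw [this]
      exact add_mem (hw l hl) h4

end CRT

section WAlg

variable {ι : Type*} {E : ι → Type*} [∀ i, NormedAddCommGroup (E i)] [∀ i, NormedSpace ℝ (E i)]
  [∀ i, FiniteDimensional ℝ (E i)] (br : ∀ i, E i →L[ℝ] E i →L[ℝ] E i) (hL : ∀ i, LieBr (br i))
  (W : Submodule ℝ (∀ i, E i)) (hbr : ∀ x ∈ W, ∀ y ∈ W, (fun i => br i (x i) (y i)) ∈ W)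

/-- The Lie algebra `W`. -/
def WA (_hL : ∀ i, LieBr (br i)) (_hbr : ∀ x ∈ W, ∀ y ∈ W, (fun i => br i (x i) (y i)) ∈ W) :
    Type _ := W

noncomputable instance : AddCommGroup (WA br W hL hbr) := inferInstanceAs (AddCommGroup W)

noncomputable instance : Module ℝ (WA br W hL hbr) := inferInstanceAs (Module ℝ W)

/-- The inclusion. -/
noncomputable def WA.incl : WA br W hL hbr →ₗ[ℝ] (∀ i, E i) := W.subtype

theorem WA.incl_inj : Function.Injective (WA.incl br hL W hbr) := W.injective_subtype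

/-- Elements. -/
def WA.mk {x : ∀ i, E i} (hx : x ∈ W) : WA br W hL hbr := ⟨x, hx⟩

@[simp] theorem WA.incl_mk {x : ∀ i, E i} (hx : x ∈ W) :
    WA.incl br hL W hbr (WA.mk br hL W hbr hx) = x := rfl

theorem WA.incl_mem (x : WA br W hL hbr) : WA.incl br hL W hbr x ∈ W := x.2

noncomputable instance : Bracket (WA br W hL hbr) (WA br W hL hbr) where
  bracket x y := WA.mk br hL W hbr
    (hbr _ (WA.incl_mem br hL W hbr x) _ (WA.incl_mem br hL W hbr y))

theorem WA.incl_lie (x y : WA br W hL hbr) :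
    WA.incl br hL W hbr ⁅x, y⁆ = fun i => br i (WA.incl br hL W hbr x i) (WA.incl br hL W hbr y i) :=
  rfl

noncomputable instance : LieRing (WA br W hL hbr) where
  add_lie x y z := WA.incl_inj br hL W hbr (by
    ext i; simp [WA.incl_lie])
  lie_add x y z := WA.incl_inj br hL W hbr (by
    ext i; simp [WA.incl_lie])
  lie_self x := WA.incl_inj br hL W hbr (by
    ext i; simp [WA.incl_lie, (hL i).self])
  leibniz_lie x y z := WA.incl_inj br hL W hbr (by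
    ext i; simp [WA.incl_lie, (hL i).jac (WA.incl br hL W hbr x i)])

noncomputable instance : LieAlgebra ℝ (WA br W hL hbr) where
  lie_smul t x y := WA.incl_inj br hL W hbr (by
    ext i; simp [WA.incl_lie])

/-- The image of `W` at level `i`. -/
def Wi (i : ι) : Submodule ℝ (E i) := W.map (LinearMap.proj i)

theorem mem_Wi {i : ι} {x : E i} : x ∈ Wi W i ↔ ∃ w ∈ W, w i = x := Iff.rfl

include hbr in
theorem Wi_br (i : ι) : ∀ x ∈ Wi W i, ∀ y ∈ Wi W i, br i x y ∈ Wi W i := by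
  rintro _ ⟨x, hx, rfl⟩ _ ⟨y, hy, rfl⟩
  exact ⟨_, hbr x hx y hy, rfl⟩

/-- The projection to level `i`. -/
noncomputable def pr (i : ι) : WA br W hL hbr →ₗ⁅ℝ⁆ LA (hL i) (Wi_br br W hbr i) :=
  { toFun := fun w => LA.mk (hL i) (Wi_br br W hbr i)
      (x := WA.incl br hL W hbr w i) ⟨_, WA.incl_mem br hL W hbr w, rfl⟩
    map_add' := fun _ _ => rfl
    map_smul' := fun _ _ => rfl
    map_lie' := fun {_ _} => rfl }

@[simp] theorem incl_pr (i : ι) (w : WA br W hL hbr) :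
    LA.incl (hL i) (Wi_br br W hbr i) (pr br hL W hbr i w) = WA.incl br hL W hbr w i := rfl

theorem pr_surjective (i : ι) : Function.Surjective (pr br hL W hbr i) := by
  intro y
  obtain ⟨w, hw, hwy⟩ := LA.incl_mem (hL i) (Wi_br br W hbr i) y
  exact ⟨WA.mk br hL W hbr hw, LA.incl_inj _ _ (by rw [incl_pr]; exact hwy)⟩

theorem exp_mem_W (hW : ∀ x : ∀ i, E i, (∀ F : Finset ι, ∃ y ∈ W, ∀ i ∈ F, y i = x i) → x ∈ W)
    (hbr : ∀ x ∈ W, ∀ y ∈ W, (fun i => br i (x i) (y i)) ∈ W) {X w : ∀ i, E i}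
    (hX : X ∈ W) (hw : w ∈ W) : (fun i => exp (br i (X i)) (w i)) ∈ W := by
  apply hW
  intro F
  let H := ∀ i : F, E i
  let R : (∀ i, E i) →ₗ[ℝ] H := LinearMap.pi fun i => LinearMap.proj (i : ι)
  let A : H →L[ℝ] H := ContinuousLinearMap.pi fun i => (br i (X i)) ∘L ContinuousLinearMap.proj i
  have hA : ∀ z : H, ∀ i, A z i = br i (X i) (z i) := fun z i => rfl
  have h1 : ∀ z ∈ W.map R, A z ∈ W.map R := by
    rintro _ ⟨z, hz, rfl⟩
    exact ⟨_, hbr X hX z hz, rfl⟩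
  obtain ⟨h2, -⟩ := exp_intertwine_on (W.map R) (ContinuousLinearMap.id ℝ H) A A h1
    (fun _ _ => rfl) (R w) ⟨w, hw, rfl⟩
  obtain ⟨y, hy, hyw⟩ := h2
  refine ⟨y, hy, fun i hi => ?_⟩
  have h3 : (exp A (R w)) ⟨i, hi⟩ = exp (br i (X i)) (w i) :=
    TwoExp.exp_intertwine (ContinuousLinearMap.proj (⟨i, hi⟩ : F) : H →L[ℝ] E i) A (br i (X i))
      (fun z => rfl) (R w)
  rw [← h3, ← hyw]
  rfl

end WAlg

theorem glue {ι : Type*} {E : ι → Type*} [∀ i, NormedAddCommGroup (E i)]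
    [∀ i, NormedSpace ℝ (E i)] [∀ i, FiniteDimensional ℝ (E i)]
    (br : ∀ i, E i →L[ℝ] E i →L[ℝ] E i) (hL : ∀ i, LieBr (br i))
    (W : Submodule ℝ (∀ i, E i))
    (hW : ∀ x : ∀ i, E i, (∀ F : Finset ι, ∃ y ∈ W, ∀ i ∈ F, y i = x i) → x ∈ W)
    (hbr : ∀ x ∈ W, ∀ y ∈ W, (fun i => br i (x i) (y i)) ∈ W)
    (g : ∀ i, E i →L[ℝ] E i) (hgW : ∀ x ∈ W, (fun i => g i (x i)) ∈ W)
    (hg : ∀ i, g i ∈ closure {a | ∃ l : List (E i), (∀ x ∈ l, ∃ w ∈ W, w i = x) ∧
      a = (l.map (fun x => NormedSpace.exp (br i x))).prod}) :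
    ∃ X₁ ∈ W, ∃ X₂ ∈ W, ∀ i, ∀ w ∈ W,
      g i (w i) - NormedSpace.exp (br i (X₁ i)) (NormedSpace.exp (br i (X₂ i)) (w i)) ∈
        Rad (br i) (W.map (LinearMap.proj i)) := by
  classical
  let 𝕎 := WA br W hL hbr
  let inc := WA.incl br hL W hbr
  let κ := {J : LieIdeal ℝ 𝕎 // IsCoatom J ∧ ¬ (⁅(⊤ : LieIdeal ℝ 𝕎), (⊤ : LieIdeal ℝ 𝕎)⁆ ≤ J) ∧
    ∃ i, ∀ w, pr br hL W hbr i w = 0 → w ∈ J}
  choose lev hlev using fun J : κ => J.2.2.2
  let I : ∀ J : κ, LieIdeal ℝ (LA (hL (lev J)) (Wi_br br W hbr (lev J))) := fun J =>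
    mapS (pr br hL W hbr (lev J)) (pr_surjective br hL W hbr (lev J)) J.1
  have hI : ∀ J, IsCoatom (I J) := fun J => mapS_isCoatom _ _ J.2.1 (hlev J)
  have key : ∀ (J : κ) (w : 𝕎), pr br hL W hbr (lev J) w ∈ I J ↔ w ∈ J.1 := by
    intro J w
    constructor
    · rintro ⟨z, hz, hzw⟩
      have h1 : w - z ∈ J.1 := hlev J _ (by rw [map_sub, ← hzw]; exact sub_self _)
      have h2 : w = z + (w - z) := by abel
      rw [h2]
      exact add_mem hz h1
    · intro hw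
      exact ⟨w, hw, rfl⟩
  have hIne : ∀ J, ¬ (⁅(⊤ : LieIdeal ℝ (LA (hL (lev J)) (Wi_br br W hbr (lev J)))), (⊤ : LieIdeal ℝ
      (LA (hL (lev J)) (Wi_br br W hbr (lev J))))⁆ ≤ I J) := by
    intro J hle
    refine J.2.2.1 (top_lie_le fun a b => ?_)
    rw [← key, LieHom.map_lie]
    exact hle (LieSubmodule.lie_mem_lie (LieSubmodule.mem_top _) (LieSubmodule.mem_top _))
  have hg' : ∀ i, g i ∈ closure {a | ∃ l : List (E i), (∀ x ∈ l, x ∈ Wi W i) ∧
      a = (l.map (fun x => exp (br i x))).prod} := hg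
  choose y₁ y₂ hy using fun J => local_two_exp (hL (lev J)) (Wi_br br W hbr (lev J)) (hI J)
    (hIne J) (g (lev J)) (hg' _)
  choose x₁ hx₁ using fun J => pr_surjective br hL W hbr (lev J) (y₁ J)
  choose x₂ hx₂ using fun J => pr_surjective br hL W hbr (lev J) (y₂ J)
  -- linear compactness
  have lc : ∀ x : κ → 𝕎, ∃ X : 𝕎, ∀ J : κ, X - x J ∈ J.1 := by
    intro x
    let κ' := Σ J : κ, {ψ : Dual ℝ (E (lev J)) //
      ∀ z ∈ ofIdeal (hL (lev J)) (Wi_br br W hbr (lev J)) (I J), ψ z = 0}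
    let φ : κ' → ((∀ i, E i) →ₗ[ℝ] ℝ) := fun p => p.2.1 ∘ₗ LinearMap.proj (lev p.1)
    obtain ⟨X, hXW, hX⟩ := linear_compact W hW φ (fun p => ⟨{lev p.1}, fun x hx => by
        have : x (lev p.1) = 0 := hx _ (Finset.mem_singleton_self _)
        change p.2.1 (x (lev p.1)) = 0
        rw [this, map_zero]⟩) (fun p => p.2.1 (inc (x p.1) (lev p.1))) (by
      intro S
      obtain ⟨w, hw⟩ := crt (fun J : κ => J.1) Subtype.val_injective (fun J => J.2.1)
        (fun J => J.2.2.1) x (S.image Sigma.fst)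
      refine ⟨inc w, WA.incl_mem br hL W hbr w, fun p hp => ?_⟩
      have h1 := hw p.1 (Finset.mem_image_of_mem _ hp)
      have h2 := p.2.2 (inc (w - x p.1) (lev p.1)) (by
        have h3 := (mem_ofIdeal (hL (lev p.1)) (Wi_br br W hbr (lev p.1))
          (I := I p.1) (x := pr br hL W hbr (lev p.1) (w - x p.1))).mpr ((key _ _).mpr h1)
        exact h3)
      rw [map_sub, Pi.sub_apply, map_sub, sub_eq_zero] at h2
      exact h2)
    refine ⟨WA.mk br hL W hbr hXW, fun J => ?_⟩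
    rw [← key, ← mem_ofIdeal (hL (lev J)) (Wi_br br W hbr (lev J))]
    by_contra hcon
    obtain ⟨f, hf, hfk⟩ := Submodule.exists_le_ker_of_notMem hcon
    apply hf
    have h1 := hX ⟨J, f, fun z hz => hfk hz⟩
    rw [incl_pr, map_sub, WA.incl_mk, Pi.sub_apply, map_sub, sub_eq_zero]
    exact h1
  obtain ⟨X₁, hX₁⟩ := lc x₁
  obtain ⟨X₂, hX₂⟩ := lc x₂
  refine ⟨inc X₁, WA.incl_mem br hL W hbr X₁, inc X₂, WA.incl_mem br hL W hbr X₂,
    fun i w hw => ?_⟩
  let u : 𝕎 := WA.mk br hL W hbr (x := (fun i => g i (w i)) -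
    fun i => exp (br i (inc X₁ i)) ((fun i => exp (br i (inc X₂ i)) (w i)) i))
    (sub_mem (hgW w hw) (exp_mem_W br W hW hbr (WA.incl_mem br hL W hbr X₁)
      (exp_mem_W br W hW hbr (WA.incl_mem br hL W hbr X₂) hw)))
  have hu : ∀ J : κ, u ∈ J.1 := by
    intro J
    rw [← key, ← mem_ofIdeal (hL (lev J)) (Wi_br br W hbr (lev J))]
    exact hy J (pr br hL W hbr (lev J) X₁) (pr br hL W hbr (lev J) X₂)
      (by rw [← hx₁, ← map_sub, key]; exact hX₁ J)
      (by rw [← hx₂, ← map_sub, key]; exact hX₂ J) (w (lev J)) ⟨w, hw, rfl⟩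
  change _ ∈ Rad (br i) (Wi W i)
  rw [rad_eq (hL i) (Wi_br br W hbr i)]
  have h1 : g i (w i) - exp (br i (inc X₁ i)) (exp (br i (inc X₂ i)) (w i)) =
      LA.incl (hL i) (Wi_br br W hbr i) (pr br hL W hbr i u) := rfl
  rw [h1, mem_ofIdeal]
  by_contra hcon
  obtain ⟨I', hI', hne', hx'⟩ := exists_coatom hcon
  have hne2 : ¬ (⁅(⊤ : LieIdeal ℝ 𝕎), (⊤ : LieIdeal ℝ 𝕎)⁆ ≤ I'.comap (pr br hL W hbr i)) := by
    intro hle
    refine hne' (top_lie_le fun a b => ?_)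
    obtain ⟨a, rfl⟩ := pr_surjective br hL W hbr i a
    obtain ⟨b, rfl⟩ := pr_surjective br hL W hbr i b
    rw [← LieHom.map_lie]
    exact hle (LieSubmodule.lie_mem_lie (LieSubmodule.mem_top _) (LieSubmodule.mem_top _))
  let J : κ := ⟨I'.comap (pr br hL W hbr i), comap_isCoatom _ (pr_surjective br hL W hbr i) hI',
    hne2, i, fun w hw => by
      change pr br hL W hbr i w ∈ I'
      rw [hw]
      exact zero_mem _⟩
  exact hx' (hu J)

end Pool.Agent.ProLieAlg
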