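import Pool.Agent.ProLieAlg.Rad
import Pool.Agent.TwoExp.Main

/-!
# Two exponentials modulo an ideal with simple quotient
-/

set_option linter.unusedSectionVars false

namespace Pool.Agent.ProLieAlg

open Pool.Agent.H72.ProLie LieAlgebra Module

section General

variable {K : Type*} [Field K] {L L' : Type*} [LieRing L] [LieAlgebra K L] [LieRing L']
  [LieAlgebra K L']

/-- The image of an ideal under a surjective homomorphism. -/
def mapS (f : L →ₗ⁅K⁆ L') (hf : Function.Surjective f) (J : LieIdeal K L) : LieIdeal K L' :=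
  { (J.toSubmodule.map (f : L →ₗ[K] L') : Submodule K L') with
    lie_mem := by
      rintro x _ ⟨y, hy, rfl⟩
      obtain ⟨x, rfl⟩ := hf x
      exact ⟨⁅x, y⁆, J.lie_mem hy, LieHom.map_lie f x y⟩ }

theorem mem_mapS {f : L →ₗ⁅K⁆ L'} {hf : Function.Surjective f} {J : LieIdeal K L} {y : L'} :
    y ∈ mapS f hf J ↔ ∃ x ∈ J, f x = y := Iff.rfl

theorem comap_isCoatom (f : L →ₗ⁅K⁆ L') (hf : Function.Surjective f) {C : LieIdeal K L'}
    (hC : IsCoatom C) : IsCoatom (C.comap f) := by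
  constructor
  · intro h
    apply hC.1
    rw [eq_top_iff]
    intro y _
    obtain ⟨x, rfl⟩ := hf y
    have : x ∈ C.comap f := by rw [h]; exact LieSubmodule.mem_top x
    exact this
  · intro J hJ
    obtain ⟨hle, x, hxJ, hxC⟩ := SetLike.lt_iff_le_and_exists.mp hJ
    have h1 : C < mapS f hf J := by
      refine SetLike.lt_iff_le_and_exists.mpr ⟨?_, f x, ⟨x, hxJ, rfl⟩, hxC⟩
      intro y hy
      obtain ⟨z, rfl⟩ := hf y
      exact ⟨z, hle hy, rfl⟩
    have h2 := hC.2 _ h1
    rw [eq_top_iff]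
    intro z _
    have h3 : f z ∈ mapS f hf J := by rw [h2]; exact LieSubmodule.mem_top _
    obtain ⟨w, hw, hwz⟩ := h3
    have h4 : z - w ∈ C.comap f := by
      change f (z - w) ∈ C
      rw [map_sub, ← hwz]
      change f w - f w ∈ C
      rw [sub_self]
      exact zero_mem _
    have h5 : z = w + (z - w) := by abel
    rw [h5]
    exact add_mem hw (hle h4)

theorem mapS_isCoatom (f : L →ₗ⁅K⁆ L') (hf : Function.Surjective f) {J : LieIdeal K L}
    (hJ : IsCoatom J) (hker : ∀ x, f x = 0 → x ∈ J) : IsCoatom (mapS f hf J) := by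
  have key : ∀ x, f x ∈ mapS f hf J ↔ x ∈ J := by
    intro x
    constructor
    · rintro ⟨z, hz, hzx⟩
      have h1 : x - z ∈ J := hker _ (by rw [map_sub, ← hzx]; exact sub_self _)
      have h2 : x = z + (x - z) := by abel
      rw [h2]
      exact add_mem hz h1
    · intro hx
      exact ⟨x, hx, rfl⟩
  constructor
  · intro h
    apply hJ.1
    rw [eq_top_iff]
    intro x _
    rw [← key, h]
    exact LieSubmodule.mem_top _
  · intro C hC
    obtain ⟨hle, y, hyC, hyJ⟩ := SetLike.lt_iff_le_and_exists.mp hC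
    obtain ⟨x, rfl⟩ := hf y
    have h1 : J < C.comap f := by
      refine SetLike.lt_iff_le_and_exists.mpr ⟨?_, x, hyC, fun hx => hyJ ((key x).mpr hx)⟩
      intro z hz
      exact hle ((key z).mpr hz)
    have h2 := hJ.2 _ h1
    rw [eq_top_iff]
    intro z _
    obtain ⟨z, rfl⟩ := hf z
    have : z ∈ C.comap f := by rw [h2]; exact LieSubmodule.mem_top z
    exact this

/-- Modulo the radical, points are separated by coatoms with perfect quotients. -/
theorem exists_coatom [CharZero K] [FiniteDimensional K L] {x : L} (hx : x ∉ radical K L) :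
    ∃ I : LieIdeal K L, IsCoatom I ∧ ¬ (⁅(⊤ : LieIdeal K L), (⊤ : LieIdeal K L)⁆ ≤ I) ∧ x ∉ I := by
  have hR := Levi.hasTrivialRadical_quotient (K := K) L
  have hfd : FiniteDimensional K (L ⧸ radical K L) :=
    inferInstanceAs (FiniteDimensional K (L ⧸ (radical K L).toSubmodule))
  set S := L ⧸ radical K L with hS
  let q : L →ₗ⁅K⁆ S := Levi.quotHom (radical K L)
  have hq : Function.Surjective q := Levi.quotHom_surjective _
  have hqx : q x ≠ 0 := fun h => hx ((Levi.quotHom_eq_zero _ x).mp h)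
  -- maximal ideal of `S` avoiding `q x`
  have hwf : WellFoundedGT (LieIdeal K S) := inferInstance
  obtain ⟨M, hM, hMmax⟩ := hwf.wf.has_min {I : LieIdeal K S | q x ∉ I}
    ⟨⊥, fun h => hqx h⟩
  have hcoat : IsCoatom M := by
    constructor
    · rintro rfl
      exact hM (LieSubmodule.mem_top _)
    · intro N hN
      by_contra hNt
      have hc := LieIdeal.isCompl_killingCompl (K := K) (L := S) N
      set N' := N.killingCompl with hN'
      have h1 : N' ≠ ⊥ := by
        intro h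
        have := hc.sup_eq_top
        rw [h, sup_bot_eq] at this
        exact hNt this
      have hxN : q x ∈ N := by
        by_contra h
        exact hMmax N h hN
      have h2 : M < M ⊔ N' := by
        refine lt_of_le_of_ne le_sup_left ?_
        intro h
        apply h1
        have h3 : N' ≤ M := by rw [h]; exact le_sup_right
        have h4 : N' ≤ N ⊓ N' := le_inf (h3.trans hN.le) le_rfl
        rw [hc.inf_eq_bot] at h4
        exact le_bot_iff.mp h4
      have h3 : q x ∈ M ⊔ N' := by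
        by_contra h
        exact hMmax _ h h2
      have h4 : (M ⊔ N') ⊓ N = M := by
        rw [sup_inf_assoc_of_le _ hN.le, inf_comm, hc.inf_eq_bot, sup_bot_eq]
      apply hM
      rw [← h4]
      exact ⟨h3, hxN⟩
  refine ⟨M.comap q, comap_isCoatom q hq hcoat, ?_, hM⟩
  intro hle
  apply hcoat.1
  have h1 := Levi.derivedSeries_one_eq_top (K := K) (S := S)
  rw [derivedSeries_def, derivedSeriesOfIdeal_succ, derivedSeriesOfIdeal_zero] at h1
  rw [← h1, ← LieSubmodule.toSubmodule_inj]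
  refine le_antisymm ?_ ?_
  · have : M ≤ ⁅(⊤ : LieIdeal K S), (⊤ : LieIdeal K S)⁆ := by rw [h1]; exact le_top
    exact this
  · rw [LieSubmodule.lieIdeal_oper_eq_linear_span']
    refine Submodule.span_le.mpr ?_
    rintro _ ⟨a, -, b, -, rfl⟩
    obtain ⟨a, rfl⟩ := hq a
    obtain ⟨b, rfl⟩ := hq b
    have : ⁅a, b⁆ ∈ M.comap q :=
      hle (LieSubmodule.lie_mem_lie (LieSubmodule.mem_top _) (LieSubmodule.mem_top _))
    have h2 : q ⁅a, b⁆ ∈ M := this
    rwa [LieHom.map_lie] at h2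

/-- A quotient by a coatom not containing the derived algebra has trivial radical. -/
theorem hasTrivialRadical_of_coatom {I : LieIdeal K L} (hI : IsCoatom I)
    (hne : ¬ (⁅(⊤ : LieIdeal K L), (⊤ : LieIdeal K L)⁆ ≤ I)) : HasTrivialRadical K (L ⧸ I) := by
  rw [hasTrivialRadical_iff_no_solvable_ideals]
  intro J hJ
  let q : L →ₗ⁅K⁆ (L ⧸ I) := Levi.quotHom I
  have hq : Function.Surjective q := Levi.quotHom_surjective _
  have hle : I ≤ J.comap q := by
    intro x hx
    change q x ∈ J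
    rw [(Levi.quotHom_eq_zero I x).mpr hx]
    exact zero_mem _
  rcases hle.eq_or_lt with h | h
  · rw [eq_bot_iff]
    intro y hy
    obtain ⟨x, rfl⟩ := hq y
    have : x ∈ J.comap q := hy
    rw [← h] at this
    rw [(Levi.quotHom_eq_zero I x).mpr this]
    exact zero_mem _
  · exfalso
    have h1 := hI.2 _ h
    have hJt : J = ⊤ := by
      rw [eq_top_iff]
      intro y _
      obtain ⟨x, rfl⟩ := hq y
      have : x ∈ J.comap q := by rw [h1]; exact LieSubmodule.mem_top _
      exact this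
    subst hJt
    -- the quotient is perfect
    have h2 : ⁅(⊤ : LieIdeal K L), (⊤ : LieIdeal K L)⁆ ⊔ I = ⊤ := by
      apply hI.2
      refine lt_of_le_of_ne le_sup_right ?_
      intro h
      exact hne (by rw [h]; exact le_sup_left)
    have h3 : ⁅(⊤ : LieIdeal K (L ⧸ I)), (⊤ : LieIdeal K (L ⧸ I))⁆ = ⊤ := by
      rw [eq_top_iff]
      intro y _
      obtain ⟨x, rfl⟩ := hq y
      have hx : x ∈ ⁅(⊤ : LieIdeal K L), (⊤ : LieIdeal K L)⁆ ⊔ I := by
        rw [h2]; exact LieSubmodule.mem_top x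
      rw [LieSubmodule.mem_sup] at hx
      obtain ⟨a, ha, b, hb, rfl⟩ := hx
      rw [map_add, (Levi.quotHom_eq_zero I b).mpr hb, add_zero]
      rw [← LieSubmodule.mem_toSubmodule, LieSubmodule.lieIdeal_oper_eq_linear_span'] at ha
      induction ha using Submodule.span_induction with
      | mem y hy =>
        obtain ⟨a, -, b, -, rfl⟩ := hy
        rw [LieHom.map_lie]
        exact LieSubmodule.lie_mem_lie (LieSubmodule.mem_top _) (LieSubmodule.mem_top _)
      | zero => rw [map_zero]; exact zero_mem _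
      | add y z _ _ hy hz =>
        rw [map_add]; exact add_mem (hy (LieSubmodule.mem_top _)) (hz (LieSubmodule.mem_top _))
      | smul c y _ hy => rw [map_smul]; exact SMulMemClass.smul_mem _ (hy (LieSubmodule.mem_top _))
    have h4 : ∀ k, derivedSeriesOfIdeal K (L ⧸ I) k ⊤ = ⊤ := by
      intro k
      induction k with
      | zero => rfl
      | succ k ih => rw [derivedSeriesOfIdeal_succ, ih, h3]
    obtain ⟨k, hk⟩ := IsSolvable.solvable K (⊤ : LieIdeal K (L ⧸ I))
    rw [LieIdeal.derivedSeries_eq_bot_iff, h4] at hk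
    apply hI.1
    rw [eq_top_iff]
    intro x _
    rw [← Levi.quotHom_eq_zero I x]
    have : Levi.quotHom I x ∈ (⊤ : LieIdeal K (L ⧸ I)) := LieSubmodule.mem_top _
    rw [hk] at this
    exact this

end General

section Local

open NormedSpace

variable {E : Type*} [NormedAddCommGroup E] [NormedSpace ℝ E] [FiniteDimensional ℝ E]
variable {br : E →L[ℝ] E →L[ℝ] E} (hL : LieBr br) {h : Submodule ℝ E}
  (hh : ∀ x ∈ h, ∀ y ∈ h, br x y ∈ h)

/-- Intertwining on an embedded space. -/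
theorem exp_intertwine_aux {V : Type*} [NormedAddCommGroup V] [NormedSpace ℝ V]
    [FiniteDimensional ℝ V] {H : Type*} [NormedAddCommGroup H] [NormedSpace ℝ H]
    [FiniteDimensional ℝ H] (j : H →L[ℝ] E) (q : E →L[ℝ] V) (A : E →L[ℝ] E) (B : V →L[ℝ] V)
    (Ah : H →L[ℝ] H) (hA : ∀ x, j (Ah x) = A (j x)) (hAB : ∀ x, q (A (j x)) = B (q (j x))) (x : H) :
    (∃ y, j y = exp A (j x)) ∧ q (exp A (j x)) = exp B (q (j x)) := by
  have h1 : j (exp Ah x) = exp A (j x) := TwoExp.exp_intertwine j Ah A hA x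
  have h2 : (q ∘L j) (exp Ah x) = exp B ((q ∘L j) x) :=
    TwoExp.exp_intertwine (q ∘L j) Ah B (fun y => by
      change q (j (Ah y)) = B (q (j y))
      rw [hA, hAB]) x
  refine ⟨⟨_, h1⟩, ?_⟩
  rw [← h1]
  exact h2

/-- Intertwining on a subspace. -/
theorem exp_intertwine_on {V : Type*} [NormedAddCommGroup V] [NormedSpace ℝ V]
    [FiniteDimensional ℝ V] (h : Submodule ℝ E) (q : E →L[ℝ] V) (A : E →L[ℝ] E) (B : V →L[ℝ] V)
    (hA : ∀ x ∈ h, A x ∈ h) (hAB : ∀ x ∈ h, q (A x) = B (q x)) :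
    ∀ x ∈ h, exp A x ∈ h ∧ q (exp A x) = exp B (q x) := by
  intro x hx
  let Ah : h →L[ℝ] h := (A ∘L h.subtypeL).codRestrict h fun x => hA x x.2
  obtain ⟨⟨y, hy⟩, h2⟩ := exp_intertwine_aux h.subtypeL q A B Ah (fun y => rfl)
    (fun y => hAB y y.2) ⟨x, hx⟩
  have hy' : (y : E) = exp A x := hy
  exact ⟨hy' ▸ y.2, h2⟩

theorem local_two_exp {I : LieIdeal ℝ (LA hL hh)} (hI : IsCoatom I)
    (hne : ¬ (⁅(⊤ : LieIdeal ℝ (LA hL hh)), (⊤ : LieIdeal ℝ (LA hL hh))⁆ ≤ I)) (g : E →L[ℝ] E)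
    (hg : g ∈ closure {a | ∃ l : List E, (∀ x ∈ l, x ∈ h) ∧
      a = (l.map (fun x => exp (br x))).prod}) :
    ∃ x₁ x₂ : LA hL hh, ∀ y₁ y₂ : LA hL hh, y₁ - x₁ ∈ I → y₂ - x₂ ∈ I → ∀ w ∈ h,
      g w - exp (br (LA.incl hL hh y₁)) (exp (br (LA.incl hL hh y₂)) w) ∈ ofIdeal hL hh I := by
  have htr := hasTrivialRadical_of_coatom hI hne
  have hfd : FiniteDimensional ℝ (LA hL hh ⧸ I) :=
    inferInstanceAs (FiniteDimensional ℝ (LA hL hh ⧸ I.toSubmodule))
  let V := EuclideanSpace ℝ (Fin (finrank ℝ (LA hL hh ⧸ I)))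
  let e : (LA hL hh ⧸ I) ≃ₗ[ℝ] V := LinearEquiv.ofFinrankEq _ _ (by simp [V])
  let π : LA hL hh →ₗ⁅ℝ⁆ (LA hL hh ⧸ I) := Levi.quotHom I
  have hπ : Function.Surjective π := Levi.quotHom_surjective I
  let B : V →ₗ[ℝ] V →ₗ[ℝ] V := LinearMap.mk₂ ℝ (fun v w => e ⁅e.symm v, e.symm w⁆)
    (fun a b c => by simp) (fun t a b => by simp) (fun a b c => by simp) (fun t a b => by simp)
  let br' : V →L[ℝ] V →L[ℝ] V := B.toContinuousBilinearMap
  have hbr' : ∀ v w, br' v w = e ⁅e.symm v, e.symm w⁆ := fun v w => rfl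
  -- the quotient map
  let f : h →ₗ[ℝ] V := (e : (LA hL hh ⧸ I) →ₗ[ℝ] V) ∘ₗ (π : LA hL hh →ₗ[ℝ] (LA hL hh ⧸ I))
  obtain ⟨q0, hq0⟩ := LinearMap.exists_extend f
  let q : E →L[ℝ] V := LinearMap.toContinuousLinearMap q0
  have hq : ∀ x : LA hL hh, q (LA.incl hL hh x) = e (π x) := fun x => LinearMap.congr_fun hq0 x
  have hker : ∀ x : LA hL hh, q (LA.incl hL hh x) = 0 ↔ x ∈ I := by
    intro x
    rw [hq, e.map_eq_zero_iff]
    exact Levi.quotHom_eq_zero I x
  have hsurj : ∀ v : V, ∃ x : LA hL hh, q (LA.incl hL hh x) = v := by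
    intro v
    obtain ⟨x, hx⟩ := hπ (e.symm v)
    exact ⟨x, by rw [hq, hx, e.apply_symm_apply]⟩
  have hmul : ∀ x y : LA hL hh, q (br (LA.incl hL hh x) (LA.incl hL hh y)) =
      br' (q (LA.incl hL hh x)) (q (LA.incl hL hh y)) := by
    intro x y
    rw [← LA.incl_lie, hq, hq, hq, hbr', e.symm_apply_apply, e.symm_apply_apply, LieHom.map_lie]
  have hmem : ∀ x (hx : x ∈ h), LA.incl hL hh (LA.mk hL hh hx) = x := fun x hx => rfl
  -- exponentials
  have hexp : ∀ x : LA hL hh, ∀ w ∈ h, exp (br (LA.incl hL hh x)) w ∈ h ∧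
      q (exp (br (LA.incl hL hh x)) w) = exp (br' (q (LA.incl hL hh x))) (q w) := by
    intro x
    refine exp_intertwine_on h q _ _ (fun y hy => hh _ (LA.incl_mem hL hh x) y hy) ?_
    intro y hy
    exact hmul x (LA.mk hL hh hy)
  -- a linear section
  obtain ⟨s0, hs0⟩ := (LinearMap.exists_rightInverse_of_surjective f (by
    rw [LinearMap.range_eq_top]
    intro v
    obtain ⟨x, hx⟩ := hsurj v
    exact ⟨x, by rw [← hx, hq]; rfl⟩))
  let s : V →L[ℝ] E := LinearMap.toContinuousLinearMap (h.subtype ∘ₗ s0)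
  have hsh : ∀ v, s v ∈ h := fun v => (s0 v).2
  have hqs : ∀ v, q (s v) = v := by
    intro v
    have h1 := LinearMap.congr_fun hs0 v
    have h2 : q (s v) = f (s0 v) := LinearMap.congr_fun hq0 (s0 v)
    rw [h2]
    exact h1
  -- the induced map
  let Ψ : (E →L[ℝ] E) → (V →L[ℝ] V) := fun a => q ∘L a ∘L s
  have hΨ : Continuous Ψ := by
    have h1 : Continuous fun a : E →L[ℝ] E => a ∘L s :=
      ((ContinuousLinearMap.compL ℝ V E E).flip s).continuous
    exact ((ContinuousLinearMap.compL ℝ V E V) q).continuous.comp h1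
  have hprod : ∀ l : List E, (∀ x ∈ l, x ∈ h) → (∀ w ∈ h,
      (l.map (fun x => exp (br x))).prod w ∈ h ∧
      q ((l.map (fun x => exp (br x))).prod w) =
        ((l.map q).map (fun x => exp (br' x))).prod (q w)) := by
    intro l
    induction l with
    | nil =>
      intro _ w hw
      exact ⟨hw, rfl⟩
    | cons a l ih =>
      intro hl w hw
      obtain ⟨h1, h2⟩ := ih (fun x hx => hl x (List.mem_cons_of_mem _ hx)) w hw
      have ha : a ∈ h := hl a List.mem_cons_self
      obtain ⟨h3, h4⟩ := hexp (LA.mk hL hh ha) _ h1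
      rw [hmem] at h3 h4
      simp only [List.map_cons, List.prod_cons]
      exact ⟨h3, by
        rw [mul_apply_eq_comp, h4, h2]
        rfl⟩
  -- `g` maps `h` to `h` and induces `Ψ g`
  have hclosed : IsClosed {a : E →L[ℝ] E | ∀ w ∈ h, q (a w) = Ψ a (q w)} := by
    have h1 : {a : E →L[ℝ] E | ∀ w ∈ h, q (a w) = Ψ a (q w)} =
        ⋂ w ∈ h, {a : E →L[ℝ] E | q (a w) = Ψ a (q w)} := by
      ext a; simp
    rw [h1]
    refine isClosed_biInter fun w _ => ?_
    refine isClosed_eq (q.continuous.comp (ContinuousLinearMap.apply ℝ E w).continuous) ?_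
    exact (ContinuousLinearMap.apply ℝ V (q w)).continuous.comp hΨ
  have hclosed2 : IsClosed {a : E →L[ℝ] E | ∀ w ∈ h, a w ∈ h} := by
    have h1 : {a : E →L[ℝ] E | ∀ w ∈ h, a w ∈ h} = ⋂ w ∈ h, {a : E →L[ℝ] E | a w ∈ h} := by
      ext a; simp
    rw [h1]
    refine isClosed_biInter fun w _ => ?_
    exact (Submodule.closed_of_finiteDimensional h).preimage
      (ContinuousLinearMap.apply ℝ E w).continuous
  have hgind : ∀ w ∈ h, q (g w) = Ψ g (q w) := by
    refine closure_minimal ?_ hclosed hg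
    rintro _ ⟨l, hl, rfl⟩ w hw
    rw [(hprod l hl w hw).2]
    change _ = q ((l.map (fun x => exp (br x))).prod (s (q w)))
    rw [(hprod l hl _ (hsh _)).2, hqs]
  have hgh : ∀ w ∈ h, g w ∈ h := by
    refine closure_minimal ?_ hclosed2 hg
    rintro _ ⟨l, hl, rfl⟩ w hw
    exact (hprod l hl w hw).1
  have hΨg : Ψ g ∈ closure {a | ∃ l : List V, a = (l.map (fun x => exp (br' x))).prod} := by
    have h1 := image_closure_subset_closure_image hΨ (Set.mem_image_of_mem Ψ hg)
    refine closure_mono ?_ h1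
    rintro _ ⟨_, ⟨l, hl, rfl⟩, rfl⟩
    refine ⟨l.map q, ?_⟩
    ext1 v
    change q ((l.map (fun x => exp (br x))).prod (s v)) = _
    rw [(hprod l hl _ (hsh _)).2, hqs]
  -- apply the theorem
  obtain ⟨v₁, v₂, hv⟩ := TwoExp.two_exp br' (fun v => by rw [hbr', lie_self, map_zero])
    (fun x y z => by
      simp only [hbr', e.symm_apply_apply]
      rw [leibniz_lie, map_add]) (by
      intro v hv
      have hnd := IsKilling.killingForm_nondegenerate ℝ (LA hL hh ⧸ I)
      have h1 : e.symm v = 0 := by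
        apply hnd.1
        intro y
        rw [killingForm_apply_apply]
        have h2 := hv (e y)
        rw [← LinearMap.trace_conj' _ e, ← h2]
        congr 1
        ext z
        simp only [LinearEquiv.conj_apply_apply, LinearMap.comp_apply,
          ContinuousLinearMap.coe_coe, hbr', LieAlgebra.ad_apply, e.symm_apply_apply]
      rw [← e.symm.map_zero] at h1
      exact e.symm.injective h1) (Ψ g) hΨg
  obtain ⟨x₁, hx₁⟩ := hsurj v₁
  obtain ⟨x₂, hx₂⟩ := hsurj v₂
  refine ⟨x₁, x₂, fun y₁ y₂ h₁ h₂ w hw => ?_⟩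
  have e₁ : q (LA.incl hL hh y₁) = v₁ := by
    rw [← hx₁, ← sub_eq_zero, ← map_sub, ← map_sub, hker]
    exact h₁
  have e₂ : q (LA.incl hL hh y₂) = v₂ := by
    rw [← hx₂, ← sub_eq_zero, ← map_sub, ← map_sub, hker]
    exact h₂
  obtain ⟨m₂, f₂⟩ := hexp y₂ w hw
  obtain ⟨m₁, f₁⟩ := hexp y₁ _ m₂
  have hm : g w - exp (br (LA.incl hL hh y₁)) (exp (br (LA.incl hL hh y₂)) w) ∈ h :=
    sub_mem (hgh w hw) m₁
  rw [mem_ofIdeal_iff hL hh hm, ← hker, hmem, map_sub, hgind w hw, f₁, f₂, e₁, e₂, hv]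
  exact sub_self _

end Local

end Pool.Agent.ProLieAlg
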